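import Pool.Agent.Helper62.GR.Goals

/-!
# Project GR (MP_08df5f_al), packets SE, DI, FIN
-/

set_option autoImplicit false

namespace Pool.Agent.Helper31.GR

open Pool.Agent.Helper62.GR Equiv

theorem ga_Agr (n : ℕ) (x y : X) : Agr n (ga x) (ga y) ↔ Agr n x y := by
  cases n with
  | zero => exact ⟨fun _ => Agr_zero _ _, fun _ => Agr_zero _ _⟩
  | succ n =>
    rw [Agr_succ, Agr_succ, ga_apply_zero, ga_apply_zero, ga_tl, ga_tl]
    simp

theorem gs_Agr_mp : ∀ (n s : ℕ) (x y : X), Agr n x y → Agr n (gs s x) (gs s y) := by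
  intro n
  induction n with
  | zero => exact fun _ _ _ _ => Agr_zero _ _
  | succ n ih =>
    intro s x y h
    rw [Agr_succ] at h
    rw [← cn_tl x, ← cn_tl y, ← h.1]
    cases h0 : x 0
    · rw [gs_cn_false, gs_cn_false, Agr_cn]
      refine ⟨rfl, ?_⟩
      split_ifs
      · exact h.2
      · exact (ga_Agr _ _ _).2 h.2
    · rw [gs_cn_true, gs_cn_true, Agr_cn]
      exact ⟨rfl, ih _ _ _ h.2⟩

theorem gs_Agr (n s : ℕ) (x y : X) : Agr n (gs s x) (gs s y) ↔ Agr n x y := by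
  constructor
  · intro h
    have h1 := gs_Agr_mp n s _ _ h
    rw [← Perm.mul_apply, ← Perm.mul_apply, gs_mul_gs] at h1
    exact h1
  · exact gs_Agr_mp n s x y

theorem gs_mul_pr (s : ℕ) (h g : Perm X) :
    gs s * pr h g = pr ((if s % 3 = 2 then 1 else ga) * h) (gs (s + 1) * g) := by
  rw [gs_eq_pr s, pr_mul]

theorem ite_mem (s : ℕ) : (if s % 3 = 2 then 1 else ga : Perm X) ∈ GG := by
  split_ifs
  · exact one_mem _
  · exact ga_mem

theorem se2 : ∀ g ∈ GG, ∃ g0 ∈ GG, ∃ g1 ∈ GG, g = pr g0 g1 ∨ g = ga * pr g0 g1 := by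
  apply GG_induction
  · exact ⟨1, one_mem _, 1, one_mem _, Or.inl pr_one.symm⟩
  · rintro g _ ⟨g0, h0, g1, h1, h | h⟩
    · exact ⟨g0, h0, g1, h1, Or.inr (by rw [h])⟩
    · exact ⟨g0, h0, g1, h1, Or.inl (by rw [h, ← mul_assoc, ga_mul_ga, one_mul])⟩
  · rintro s g _ ⟨g0, h0, g1, h1, h | h⟩
    · refine ⟨_, mul_mem (ite_mem s) h0, _, mul_mem (gs_mem (s + 1)) h1, Or.inl ?_⟩
      rw [h, gs_mul_pr]
    · refine ⟨_, mul_mem (gs_mem (s + 1)) h0, _, mul_mem (ite_mem s) h1, Or.inr ?_⟩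
      rw [h, gs_eq_pr s, ← mul_assoc, ← pr_mul, ← mul_assoc]
      congr 1
      rw [ga_mul_pr]

theorem pr_swap (h g : Perm X) : ga * pr h g * ga = pr g h := by
  rw [ga_mul_pr, mul_assoc, ga_mul_ga, mul_one]

theorem se3 : ∀ g ∈ GG, ∃ h ∈ GG, pr h g ∈ GG := by
  apply GG_induction
  · exact ⟨1, one_mem _, by rw [pr_one]; exact one_mem _⟩
  · rintro g _ ⟨h, hh, hg⟩
    refine ⟨gs 2 * h, mul_mem (gs_mem 2) hh, ?_⟩
    rw [← pr_mul]
    refine mul_mem ?_ hg
    have e : gs 1 = pr ga (gs 2) := by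
      rw [gs_eq_pr 1, if_neg (by norm_num)]
    rw [← pr_swap, ← e]
    exact mul_mem (mul_mem ga_mem (gs_mem 1)) ga_mem
  · rintro s g _ ⟨h, hh, hg⟩
    refine ⟨(if (s + 2) % 3 = 2 then 1 else ga) * h, mul_mem (ite_mem (s + 2)) hh, ?_⟩
    have e : gs s = gs (s + 2 + 1) := gs_congr (by omega)
    rw [e, ← gs_mul_pr]
    exact mul_mem (gs_mem _) hg

/-- **SE** -/
theorem se : G_SE := by
  refine ⟨?_, se2, se3, ?_, ?_⟩
  · apply GG_induction
    · intro n x y
      exact Iff.rfl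
    · intro g _ h n x y
      rw [Perm.mul_apply, Perm.mul_apply, ga_Agr, h]
    · intro s g _ h n x y
      rw [Perm.mul_apply, Perm.mul_apply, gs_Agr, h]
  · intro g hg
    obtain ⟨h, hh, h1⟩ := se3 g hg
    exact ⟨h, hh, by rw [← pr_swap]; exact mul_mem (mul_mem ga_mem h1) ga_mem⟩
  · intro g0 g1 h
    obtain ⟨h0, h0m, h1, h1m, e | e⟩ := se2 _ h
    · obtain ⟨e0, e1⟩ := pr_inj e
      exact ⟨e0 ▸ h0m, e1 ▸ h1m⟩
    · exact absurd e (pr_ne _ _ _ _)

/-- **DI** -/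
theorem di : G_DI := by
  intro G _ a d ha hd h4
  have ha' : a⁻¹ = a := inv_eq_of_mul_eq_one_left ha
  have hd' : d⁻¹ = d := inv_eq_of_mul_eq_one_left hd
  have hc : ∀ n : ℤ, a * (a * d) ^ n = (a * d) ^ (-n) * a := by
    intro n
    have h1 : a * (a * d) * a⁻¹ = (a * d)⁻¹ := by
      rw [mul_inv_rev, ha', hd', ← mul_assoc, ha, one_mul]
    have h2 : a * (a * d) ^ n * a⁻¹ = (a * d) ^ (-n) := by
      rw [← conj_zpow, h1, inv_zpow, zpow_neg]
    rw [← h2, mul_assoc, inv_mul_cancel, mul_one]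
  have hda : d = a * (a * d) := by rw [← mul_assoc, ha, one_mul]
  have key : ∀ u ∈ Subgroup.closure ({a, d} : Set G),
      ∃ n : ℤ, u = (a * d) ^ n ∨ u = (a * d) ^ n * a := by
    have stepa : ∀ u : G, (∃ n : ℤ, u = (a * d) ^ n ∨ u = (a * d) ^ n * a) →
        ∃ n : ℤ, a * u = (a * d) ^ n ∨ a * u = (a * d) ^ n * a := by
      rintro u ⟨n, rfl | rfl⟩
      · exact ⟨-n, Or.inr (hc n)⟩
      · exact ⟨-n, Or.inl (by rw [← mul_assoc, hc, mul_assoc, ha, mul_one])⟩
    have stepd : ∀ u : G, (∃ n : ℤ, u = (a * d) ^ n ∨ u = (a * d) ^ n * a) →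
        ∃ n : ℤ, d * u = (a * d) ^ n ∨ d * u = (a * d) ^ n * a := by
      rintro u ⟨n, h⟩
      have e : d * u = a * ((a * d) * u) := by rw [← mul_assoc, ← hda]
      rw [e]
      apply stepa
      rcases h with rfl | rfl
      · exact ⟨n + 1, Or.inl (by rw [add_comm, zpow_one_add])⟩
      · exact ⟨n + 1, Or.inr (by rw [add_comm, zpow_one_add, ← mul_assoc])⟩
    intro u hu
    induction hu using Subgroup.closure_induction_left with
    | one => exact ⟨0, Or.inl (by rw [zpow_zero])⟩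
    | mul_left x hx y hy ih =>
      simp only [Set.mem_insert_iff, Set.mem_singleton_iff] at hx
      rcases hx with rfl | rfl
      · exact stepa y ih
      · exact stepd y ih
    | inv_mul_cancel x hx y hy ih =>
      simp only [Set.mem_insert_iff, Set.mem_singleton_iff] at hx
      rcases hx with rfl | rfl
      · rw [ha']; exact stepa y ih
      · rw [hd']; exact stepd y ih
  intro u hu
  obtain ⟨n, rfl | rfl⟩ := key u hu
  · rw [← zpow_natCast, ← zpow_mul, mul_comm, zpow_mul]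
    have : ((a * d) ^ ((4 : ℕ) : ℤ)) = 1 := by rw [zpow_natCast, h4]
    rw [this, one_zpow]
  · have h2 : (a * d) ^ n * a * ((a * d) ^ n * a) = 1 := by
      rw [mul_assoc, ← mul_assoc a, hc, mul_assoc, ha, mul_one, zpow_neg, mul_inv_cancel]
    have h3 : ((a * d) ^ n * a) ^ 2 = 1 := by rw [pow_two, h2]
    rw [show (4 : ℕ) = 2 * 2 from rfl, pow_mul, h3, one_pow]

/-- `y ↦ pr 1 y` -/
def prR : Perm X →* Perm X where
  toFun y := pr 1 y
  map_one' := pr_one
  map_mul' x y := by rw [pr_mul, one_mul]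

theorem prR_apply (y : Perm X) : prR y = pr 1 y := rfl

/-- **FIN** -/
theorem fin (h1 : G_SE) (h2 : G_DI) : G_FIN := by
  obtain ⟨-, -, hse3, -, -⟩ := h1
  -- the normal closure of `b`
  let b' : GG := ⟨gs 0, gs_mem 0⟩
  let B : Subgroup GG := Subgroup.normalClosure {b'}
  have hb : b' ∈ B := Subgroup.subset_normalClosure rfl
  let π : GG →* GG ⧸ B := QuotientGroup.mk' B
  have hπb : π b' = 1 := (QuotientGroup.eq_one_iff b').2 hb
  let a' : GG := ⟨ga, ga_mem⟩
  let d' : GG := ⟨gs 2, gs_mem 2⟩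
  have ha : π a' * π a' = 1 := by
    rw [← map_mul]
    have : a' * a' = 1 := Subtype.ext ga_mul_ga
    rw [this, map_one]
  have hd : π d' * π d' = 1 := by
    rw [← map_mul]
    have : d' * d' = 1 := Subtype.ext (gs_mul_gs 2)
    rw [this, map_one]
  have had : (π a' * π d') ^ 4 = 1 := by
    rw [← map_mul, ← map_pow]
    have e : (ga * gs 2) ^ 4 = 1 := by
      have e3 : gs 2 = pr 1 (gs 0) := by
        rw [gs_eq_pr 2, if_pos (by norm_num), gs_congr (show 0 % 3 = (2 + 1) % 3 by norm_num)]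
      have e2 : (ga * gs 2) ^ 2 = pr (gs 0) (gs 0) := by
        rw [pow_two, e3]
        conv_lhs =>
          rw [ga_mul_pr]
          rw [mul_assoc, ← ga_mul_pr, ← mul_assoc ga, ga_mul_ga, one_mul]
        rw [pr_mul, mul_one, one_mul]
      rw [show (4 : ℕ) = 2 * 2 from rfl, pow_mul, e2, pow_two, pr_mul, gs_mul_gs, pr_one]
    have : (a' * d') ^ 4 = 1 := Subtype.ext e
    rw [this, map_one]
  have hgen : ∀ g ∈ GG, ∀ hg : g ∈ GG, π ⟨g, hg⟩ ∈ Subgroup.closure ({π a', π d'} : Set (GG ⧸ B)) := by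
    apply GG_induction
    · intro hg
      have : (⟨1, hg⟩ : GG) = 1 := rfl
      rw [this, map_one]
      exact one_mem _
    · intro g hg ih hg'
      have : (⟨ga * g, hg'⟩ : GG) = a' * ⟨g, hg⟩ := rfl
      rw [this, map_mul]
      exact mul_mem (Subgroup.subset_closure (by simp)) (ih hg)
    · intro s g hg ih hg'
      have : (⟨gs s * g, hg'⟩ : GG) = ⟨gs s, gs_mem s⟩ * ⟨g, hg⟩ := rfl
      rw [this, map_mul]
      refine mul_mem ?_ (ih hg)
      have h3 : s % 3 = 0 ∨ s % 3 = 1 ∨ s % 3 = 2 := by omega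
      rcases h3 with h | h | h
      · have e : (⟨gs s, gs_mem s⟩ : GG) = b' := Subtype.ext (gs_congr h)
        rw [e, hπb]
        exact one_mem _
      · have e : (⟨gs s, gs_mem s⟩ : GG) = d' * b' := by
          apply Subtype.ext
          change gs s = gs 2 * gs 0
          rw [gs_congr (show 0 % 3 = (2 + 1) % 3 by norm_num), gs_mul_succ]
          exact gs_congr (by omega)
        rw [e, map_mul, hπb, mul_one]
        exact Subgroup.subset_closure (by simp)
      · have e : (⟨gs s, gs_mem s⟩ : GG) = d' := Subtype.ext (gs_congr h)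
        rw [e]
        exact Subgroup.subset_closure (by simp)
  have hB : ∀ u : GG, u ^ 4 ∈ B := by
    intro u
    rw [← QuotientGroup.eq_one_iff]
    change π (u ^ 4) = 1
    rw [map_pow]
    exact h2 (GG ⧸ B) (π a') (π d') ha hd had _ (hgen u.1 u.2 u.2)
  -- the pairs `(1, y)`
  let K : Subgroup GG := GG.comap (prR.comp GG.subtype)
  have hK : ∀ y : GG, y ∈ K ↔ pr 1 (y : Perm X) ∈ GG := fun y => Iff.rfl
  have hKn : K.Normal := by
    constructor
    intro y hy x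
    rw [hK] at hy ⊢
    obtain ⟨h, _, hx⟩ := hse3 x.1 x.2
    have e : pr 1 ((x * y * x⁻¹ : GG) : Perm X) = pr h x.1 * pr 1 y.1 * (pr h x.1)⁻¹ := by
      rw [pr_inv, pr_mul, pr_mul, mul_one, mul_inv_cancel]
      rfl
    rw [e]
    exact mul_mem (mul_mem hx hy) (inv_mem hx)
  have hBK : B ≤ K := by
    apply Subgroup.normalClosure_le_normal
    rintro y hy
    rw [Set.mem_singleton_iff] at hy
    subst hy
    change pr 1 (gs 0) ∈ GG
    have e3 : gs 2 = pr 1 (gs 0) := by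
      rw [gs_eq_pr 2, if_pos (by norm_num), gs_congr (show 0 % 3 = (2 + 1) % 3 by norm_num)]
    rw [← e3]
    exact gs_mem 2
  have hR : ∀ g ∈ GG, pr 1 (g ^ 4) ∈ GG := fun g hg => hBK (hB ⟨g, hg⟩)
  have hL : ∀ g ∈ GG, pr (g ^ 4) 1 ∈ GG := fun g hg => by
    rw [← pr_swap]
    exact mul_mem (mul_mem ga_mem (hR g hg)) ga_mem
  intro g0 hg0 g1 hg1
  have e : pr g0 g1 ^ 4 = pr (g0 ^ 4) 1 * pr 1 (g1 ^ 4) := by
    rw [pr_pow, pr_mul, mul_one, one_mul]
  rw [e]
  exact mul_mem (hL g0 hg0) (hR g1 hg1)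

end Pool.Agent.Helper31.GR
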